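import Pool.Agent.T9h98.DC.All

/-!
# The demicube has `d - 2` flag orbits, so `N_k ≥ k + 3`

`N_k` is the least `N` such that `d < N` for every geometrically `k`-orbit convex `d`-polytope. For `d ≥ 5` the
`d`-dimensional demicube (the convex hull of the vertices of the cube `{1,-1}^d` with an even number
of entries `-1`) is a geometrically `(d - 2)`-orbit convex polytope. So there is a `k`-orbit polytope of
dimension `k + 2` for all `k ≥ 3`, and `N_k ≥ k + 3`.

Proof: the proper faces are the `m`-dimensional demicubes in the faces of the cube (`3 ≤ m < d`) and the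
simplices with the vertices `v ∘ flip i`, `i ∈ I`, `v` an odd vertex of the cube. In a flag the faces of
dimension `< s` are of the second kind and the others of the first kind, `3 ≤ s ≤ d`; the signed
permutations of `P` act transitively on the flags with the same `s`, and `s` is invariant under all
isometries of `P` if `d ≥ 5`.
-/

set_option autoImplicit false

namespace Pool.Agent.Results.MP_727bc7_co.Demicubes

open Pool.Agent.T9h98.DC

/-- (1) For `d ≥ 5` the `d`-demicube is a geometrically `(d - 2)`-orbit convex `d`-polytope.
(2) For `k ≥ 3`: if `d < N` for every geometrically `k`-orbit convex `d`-polytope, then `k + 3 ≤ N`. -/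
theorem result :
    (∀ d : ℕ, 5 ≤ d →
      IsKOrbit (d - 2) (convexHull ℝ {x : E d | (∀ i, x i = 1 ∨ x i = -1) ∧ ∏ i, x i = 1})) ∧
    ∀ k : ℕ, 3 ≤ k → ∀ N : ℕ, (∀ (d : ℕ) (P : Set (E d)), IsKOrbit k P → d < N) → k + 3 ≤ N :=
  all

end Pool.Agent.Results.MP_727bc7_co.Demicubes
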