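import Pool.Agent.T9h98.EP.All
import Pool.Agent.T9h98.EP.Rd7
import Pool.Agent.T9h98.EP.Rd8

/-!
# Two exceptional polytopes: `N_4 ≥ 8` and `N_5 ≥ 9`

`N_k` is the least `N` such that `d < N` for every geometrically `k`-orbit convex `d`-polytope (known:
`6 ≤ N_4 ≤ 18`, `7 ≤ N_5 ≤ 36`). The convex hull of the 126 roots of `E₇` is a 4-orbit polytope of dimension 7 and
the convex hull of the 2160 vectors of norm 4 (twice the minimal norm) of the `E₈` lattice is a 5-orbit
polytope of dimension 8 (the polytopes `2_31` and `2_41`).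

Proof: for a Weyl group with the diagram `0 - 1 - 2 - 4 - 5 - ⋯`, with `3` attached to `2`, and the convex hull of
the orbit of the fundamental weight `ω` of the node `0`, every flag is equivalent to one of the
flags of the faces `conv (W_T ω)`, `T = T_1 ⊂ T_2 ⊂ ⋯` sets of nodes which are connected and contain `0`; such
a chain is determined by the place where `3` enters; and this place is an invariant of the flag for all
isometries of the polytope, by the diameters of the faces.
-/

set_option autoImplicit false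

namespace Pool.Agent.Results.MP_727bc7_co.ExceptionalPolytopes

open Pool.Agent.T9h98.DC Pool.Agent.T9h98.EP

/-- (1) The convex hull of the integral vectors `z` of `R^7` with `|z|² = 4` and even sums over the seven lines
`{i, i+1, i+3}` of the Fano plane (the roots of `E₇`) is a geometrically 4-orbit convex 7-polytope.
(2) The convex hull of the integral vectors `z` of `R^8` with `|z|² = 16`, with entries of the same parity
and sum divisible by 4 is a geometrically 5-orbit convex 8-polytope.
(3) `N_4 ≥ 8`. (4) `N_5 ≥ 9`. -/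
theorem result :
    IsKOrbit 4 (convexHull ℝ {x : E 7 | ∃ z : Fin 7 → ℤ, (∀ i, x i = z i) ∧
      ∑ i, z i ^ 2 = 4 ∧ ∀ i, (z i + z (i + 1) + z (i + 3)) % 2 = 0}) ∧
    IsKOrbit 5 (convexHull ℝ {x : E 8 | ∃ z : Fin 8 → ℤ, (∀ i, x i = z i) ∧
      ∑ i, z i ^ 2 = 16 ∧ (∀ i j, (z i - z j) % 2 = 0) ∧ (∑ i, z i) % 4 = 0}) ∧
    (∀ N : ℕ, (∀ (d : ℕ) (P : Set (E d)), IsKOrbit 4 P → d < N) → 8 ≤ N) ∧
    ∀ N : ℕ, (∀ (d : ℕ) (P : Set (E d)), IsKOrbit 5 P → d < N) → 9 ≤ N := by
  have h7 := all 7 Pool.Agent.T9h48.EP.dat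
  have h8 := all 8 rd8
  unfold RD.P at h7 h8
  rw [rd7_V] at h7
  rw [rd8_V] at h8
  exact ⟨h7, h8, fun N hN => hN 7 _ h7, fun N hN => hN 8 _ h8⟩

end Pool.Agent.Results.MP_727bc7_co.ExceptionalPolytopes
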