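import Pool.Agent.T9h44.N1.Top3
import Pool.Agent.T9h40.N1.Num

/-!
# The maximal dimension of `k`-orbit convex polytopes is `k + O(1)`

`N_k` is the least `N` such that `d < N` for every geometrically `k`-orbit convex `d`-polytope (known:
`k + 2 ≤ N_k ≤ 9 · 2^(k-3)`, `N_2 = 4`, `N_3 = 9`). Here `N_k ≤ k + 14` for all `k ≥ 2`.

Proof: by induction on `k` for a polytope `P` of dimension `d` and a group `H` of linear isometries of `P` with at
most `k` orbits on the flags: if `d` is large, `P` is good, i.e. regular and the neighbours of every vertex are
equivalent under `H`. A polytope all of whose vertex figures are good (with the stabilizers) is good. If `H` is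
transitive on the vertices, one passes to a vertex figure; after four such steps `H` is transitive on the chains of
faces of dimensions `0, 1, 2, 3`, and then `P` is regular: the iterated vertex figures are inscribed polytopes whose
edges have inner products `c / (1 + j c)`, and an inscribed polytope of dimension at least 9 with a group transitive
on the pairs vertex, edge and with edge products `0 < c < 1/3` does not exist (tight frames; for `0 < c < 1/5`
already in dimension at least 5). If `H` is not transitive on the vertices, and the figure at `w` is not good, then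
by induction the neighbours of `w` are one orbit, the figure at `w` has more than `k - 3` orbits of flags, so the
figure at a neighbour `v` has at most 3 orbits and is good; it is not a cube (angles), so its group is transitive on
the chains of four faces, hence the same holds at `w`: a contradiction. So this case costs only one dimension.
-/

set_option autoImplicit false

namespace Pool.Agent.Results.MP_727bc7_co.LinearUpperBound

open Pool.Agent.T9h98.DC

/-- (1) For `k ≥ 2` every geometrically `k`-orbit convex `d`-polytope has `d < k + 14`; (2) for `k = 4` it has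
`d < 17`, for `k = 5` it has `d < 18`. (3) If there are no 2-orbit polytopes of dimension `d ≥ 11` and no 3-orbit
polytopes of dimension `d ≥ 12`, then `d < 16` for `k = 4`, `d < 17` for `k = 5`, and `d < k + 13` for all
`k ≥ 2`. -/
theorem result :
    (∀ k : ℕ, 2 ≤ k → ∀ (d : ℕ) (P : Set (E d)), IsKOrbit k P → d < k + 14) ∧
    ((∀ (d : ℕ) (P : Set (E d)), IsKOrbit 4 P → d < 17) ∧
      ∀ (d : ℕ) (P : Set (E d)), IsKOrbit 5 P → d < 18) ∧
    ((∀ d : ℕ, 11 ≤ d → ∀ P : Set (E d), ¬ IsKOrbit 2 P) →
      (∀ d : ℕ, 12 ≤ d → ∀ P : Set (E d), ¬ IsKOrbit 3 P) →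
        (∀ (d : ℕ) (P : Set (E d)), IsKOrbit 4 P → d < 16) ∧
        (∀ (d : ℕ) (P : Set (E d)), IsKOrbit 5 P → d < 17) ∧
        ∀ k : ℕ, 2 ≤ k → ∀ (d : ℕ) (P : Set (E d)), IsKOrbit k P → d < k + 13) :=
  ⟨fun k hk d P hP => (Pool.Agent.T9h40.N1.bound14 k hk d P hP).1,
    ⟨fun d P hP => (Pool.Agent.T9h40.N1.bound14 4 (by norm_num) d P hP).2.1 rfl,
      fun d P hP => (Pool.Agent.T9h40.N1.bound14 5 (by norm_num) d P hP).2.2 rfl⟩,
    fun h2 h3 => Pool.Agent.T9h44.N1.top13 h2 h3⟩

end Pool.Agent.Results.MP_727bc7_co.LinearUpperBound
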